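import Pool.Agent.Helper71_HNF.Stmt
import Pool.Agent.Helper61_HN.Block
import Pool.Agent.Helper61_HN.LeftMet

/-!
# HNF: modules MET, SEP, CRIT
-/

set_option autoImplicit false

namespace Pool.Agent.HNF.H61

open Topology Set MeasureTheory Filter

theorem met : MetStmt := by
  intro G _ _ _ _
  obtain ⟨d, hd, h1⟩ := HN.exists_leftInv (H := G)
  refine ⟨⟨fun x => d 1 x, hd.self 1, hd.one_inv, hd.one_mul_le, h1 1, ?_, ?_⟩⟩
  · rw [continuous_iff_continuousAt]
    intro x
    rw [ContinuousAt, Metric.tendsto_nhds]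
    intro ε hε
    filter_upwards [hd.ball_mem x hε] with y hy
    have h2 := hd.tri 1 x y
    have h3 := hd.tri 1 y x
    rw [hd.comm y x] at h3
    rw [Real.dist_eq, abs_lt]
    constructor <;> linarith
  · intro U hU
    exact hd.mem_nhds hU

theorem sep : SepStmt := by
  intro G _ _ _ _ hlc A hA
  exact HN.exists_seq_right hlc hA

theorem crit : CritStmt := by
  intro G _ _ _ _ _ _ X hX F hF π hπ φ hφ hcap hrect
  refine HN.criterion_block (Y := X) (fun ν h1 h2 => hX ν h1 h2) hF hπ hφ ?_ ?_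
  · intro x ν hν
    obtain ⟨u, hu, h⟩ := hcap ν hν
    exact ⟨u, hu, h x⟩
  · intro w hw z₀₀ h₀₀ z₁₀ h₁₀ z₀₁ h₀₁ z₁₁ h₁₁ y₀₀ y₁₀ y₀₁ y₁₁ n1 n2 n3 n4 n5 n6
    set z : Bool → Bool → G := fun i j =>
      bif i then (bif j then z₁₁ else z₁₀) else (bif j then z₀₁ else z₀₀) with hz
    have := hrect w hw z (by
      intro i j
      cases i <;> cases j <;> simp only [hz, cond_true, cond_false]
      · exact ⟨h₀₀, y₀₀⟩
      · exact ⟨h₀₁, y₀₁⟩
      · exact ⟨h₁₀, y₁₀⟩
      · exact ⟨h₁₁, y₁₁⟩) (by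
      intro i j i' j' hne
      cases i <;> cases j <;> cases i' <;> cases j' <;>
        simp only [hz, cond_true, cond_false, ne_eq, not_true_eq_false] at hne ⊢
      all_goals first
        | exact absurd rfl hne
        | exact n1 | exact n2 | exact n3 | exact n4 | exact n5 | exact n6
        | exact n1.symm | exact n2.symm | exact n3.symm | exact n4.symm | exact n5.symm
        | exact n6.symm)
    simpa [hz] using this

end Pool.Agent.HNF.H61
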