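import Pool.Agent.Helper71_HNF.StmtE

/-!
# HNF: deductions of `dec` and `lema` from the local conditions of the engines
-/

set_option autoImplicit false

namespace Pool.Agent.HNF.H61

open Topology Set MeasureTheory

section

variable {G : Type} [Group G] [TopologicalSpace G]

theorem d_left (N : LNorm G) (a x y : G) : N.N ((a * x)⁻¹ * (a * y)) = N.N (x⁻¹ * y) := by
  congr 1; group

theorem d_comm (N : LNorm G) (x y : G) : N.N (x⁻¹ * y) = N.N (y⁻¹ * x) := by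
  rw [← N.inv]; congr 1; group

theorem d_tri (N : LNorm G) (x y z : G) : N.N (x⁻¹ * z) ≤ N.N (x⁻¹ * y) + N.N (y⁻¹ * z) := by
  have h := N.mul_le (x⁻¹ * y) (y⁻¹ * z)
  have e : x⁻¹ * y * (y⁻¹ * z) = x⁻¹ * z := by group
  rwa [e] at h

variable {I : Idx} {N : LNorm G} {q : ℕ → G} {D : Dat G}

/-- right names -/
theorem right_name (hB : Base I N q D) {t : ℕ} (ht : 0 < t) {z : G} (hz : z ∈ Pc I N q D t) :
    ∃ i < I.rd t, ∃ x, Rel I N q D t x ∧ N.N ((D.g (I.par t) * q i)⁻¹ * x) < D.η (I.th t) ∧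
      N.N ((D.g t * q i)⁻¹ * z) < 2 * D.η (I.th t) ∧
      N.N ((D.v t * x)⁻¹ * z) < 3 * D.η (I.th t) := by
  obtain ⟨a, ha, x, hx, rfl⟩ := hz
  obtain ⟨i, hi, hxi⟩ := hx.1
  have hr := hB.right t ht i hi a ha
  have hg := hB.g_succ t ht
  have e1 : N.N ((D.g t * q i)⁻¹ * (a * (D.g t * q i))) < D.η (I.th t) := by
    have : (D.g t * q i)⁻¹ * (a * (D.g t * q i)) = (D.g t * q i)⁻¹ * a * (D.g t * q i) := by group
    rw [this]; exact hr
  have e2 : N.N ((a * (D.g t * q i))⁻¹ * (a * D.v t * x)) < D.η (I.th t) := by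
    have : (a * (D.g t * q i))⁻¹ * (a * D.v t * x) = (D.g (I.par t) * q i)⁻¹ * x := by
      rw [hg]; group
    rw [this]; exact hxi
  have e3 : N.N ((D.v t * x)⁻¹ * (D.g t * q i)) < D.η (I.th t) := by
    rw [d_comm]
    have : (D.g t * q i)⁻¹ * (D.v t * x) = (D.g (I.par t) * q i)⁻¹ * x := by
      rw [hg]; group
    rw [this]; exact hxi
  have t1 := d_tri N (D.g t * q i) (a * (D.g t * q i)) (a * D.v t * x)
  have t2 := d_tri N (D.v t * x) (D.g t * q i) (a * D.v t * x)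
  exact ⟨i, hi, x, hx, hxi, by linarith, by linarith⟩

/-- left names -/
theorem left_name (hB : Base I N q D) {t : ℕ} (ht : 0 < t) {z : G} (hz : z ∈ Pc I N q D t) :
    ∃ j < I.mp t, ∃ a ∈ D.A (I.par t), ∃ l ∈ D.L (I.par t),
      z = a * l * (D.g (I.par t) * q j) := by
  obtain ⟨a, ha, x, hx, rfl⟩ := hz
  obtain ⟨j, hj, l, hl, hxl⟩ := hx.2.1
  refine ⟨j, hj, a * D.v t, hB.nest t ht a ha, l, hl, ?_⟩
  rw [hxl]; group

/-- the error of `e = zO⁻¹ zN` -/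
theorem err (hB : Base I N q D) {o' tN : ℕ} (ho' : 0 < o') (htN : 0 < tN)
    (hlt : tN < I.par o') {zO zN : G} (hO : zO ∈ Pc I N q D o') (hN : zN ∈ Pc I N q D tN) :
    ∃ j < I.mp o', ∃ i < I.rd tN,
      N.N (((D.g (I.par o') * q j)⁻¹ * (D.g tN * q i))⁻¹ * (zO⁻¹ * zN)) < 3 * D.η (I.th tN) := by
  obtain ⟨i, hi, x, -, -, hz, -⟩ := right_name hB htN hN
  obtain ⟨j, hj, a, ha, l, hl, rfl⟩ := left_name hB ho' hO
  refine ⟨j, hj, i, hi, ?_⟩
  have h1 := hB.inv (I.par o') tN htN hlt i hi a ha l hl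
  set y := D.g tN * q i with hy
  have e1 : ((D.g (I.par o') * q j)⁻¹ * y)⁻¹ * ((a * l * (D.g (I.par o') * q j))⁻¹ * zN) =
      y⁻¹ * ((a * l)⁻¹ * zN) := by group
  rw [e1]
  have t1 := d_tri N y ((a * l)⁻¹ * y) ((a * l)⁻¹ * zN)
  have e2 : N.N (y⁻¹ * ((a * l)⁻¹ * y)) = N.N (y⁻¹ * (a * l) * y) := by
    rw [← N.inv]; congr 1; group
  have e3 : N.N (((a * l)⁻¹ * y)⁻¹ * ((a * l)⁻¹ * zN)) = N.N (y⁻¹ * zN) := d_left N _ _ _
  rw [e2, e3] at t1
  linarith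

/-! ### Engine I -/

/-- local conditions of engine I -/
structure Loc1 (I : Idx) (N : LNorm G) (q : ℕ → G) (D : Dat G) : Prop where
  sib : ∀ t t', 0 < t' → t' < t → I.par t = I.par t' → ∀ i' < I.rd t',
    (∃ x', Rel I N q D t' x' ∧ N.N ((D.g (I.par t') * q i')⁻¹ * x') < D.η (I.th t')) →
    ∀ x, Rel I N q D t x →
      3 * D.η (I.th t) + 2 * D.η (I.th t') ≤ N.N ((D.g t' * q i')⁻¹ * (D.v t * x))
  avoid : ∀ t w tN o j j' i, 0 < t → I.par t < w → w < I.th t → 0 < tN → I.par t < I.th tN →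
    I.mp t ≤ I.th tN → tN < I.th t → o < I.th t → j < I.th t → j' < I.th t → i < I.rd tN →
    ∀ x, Rel I N q D t x → ∀ a ∈ D.A w, ∀ l ∈ D.L w,
      6 * D.η (I.th tN) ≤ N.N ((a * l * ((D.g w * q j') * ((D.g o * q j)⁻¹ * (D.g tN * q i))))⁻¹ *
        (D.v t * x))

theorem dec1 (hB : Base I N q D) (h1 : Loc1 I N q D) {t t' : ℕ} (ht : 0 < t) (ht' : 0 < t')
    (hlt : t' < t) (hp : I.par t = I.par t') : Disjoint (Pc I N q D t) (Pc I N q D t') := by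
  rw [Set.disjoint_left]
  intro z hz hz'
  obtain ⟨i, hi, x, hx, hxi, hz1, hz2⟩ := right_name hB ht hz
  obtain ⟨i', hi', x', hx', hxi', hz1', hz2'⟩ := right_name hB ht' hz'
  have h := h1.sib t t' ht' hlt hp i' hi' ⟨x', hx', hxi'⟩ x hx
  have h2 := d_tri N (D.g t' * q i') z (D.v t * x)
  rw [d_comm N z] at h2
  linarith

theorem lema1 (hB : Base I N q D) (h1 : Loc1 I N q D) (n n' o' tN : ℕ) (hn : 0 < n) (hn' : 0 < n')
    (ho' : 0 < o') (htN : 0 < tN) (h₁ : I.par n < I.th tN) (h₂ : I.mp n ≤ I.th tN)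
    (h₃ : tN < I.th (I.par o')) (h₄ : I.par o' < I.th n) (h₅ : I.mp o' ≤ I.th n)
    (h₆ : I.par n < I.par n') (h₇ : I.par n' < I.th n) (h₈ : I.mp n' ≤ I.th n)
    (h₉ : n < I.th n') (hw : 0 < I.par n') (ho : 0 < I.par o') :
    ∀ zP ∈ Pc I N q D n, ∀ zM ∈ Pc I N q D n', ∀ zO ∈ Pc I N q D o', ∀ zN ∈ Pc I N q D tN,
      zP ≠ zM * zO⁻¹ * zN := by
  intro zP hP zM hM zO hO zN hN heq
  have hlt : tN < I.par o' := h₃.trans (I.th_lt _ ho)
  obtain ⟨j, hj, i, hi, herr⟩ := err hB ho' htN hlt hO hN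
  obtain ⟨i₁, hi₁, x, hx, -, -, hPx⟩ := right_name hB hn hP
  obtain ⟨j', hj', a, ha, l, hl, rfl⟩ := left_name hB hn' hM
  have hη : D.η (I.th n) ≤ D.η (I.th tN) := hB.η_anti _ _ (by
    have := I.th_lt tN htN
    omega)
  have hηp := hB.η_pos (I.th tN)
  have h := h1.avoid n (I.par n') tN (I.par o') j j' i hn h₆ h₇ htN h₁ h₂ (by omega) h₄
    (by omega) (by omega) hi x hx a ha l hl
  set e0 := (D.g (I.par o') * q j)⁻¹ * (D.g tN * q i)
  have e1 : zP = a * l * (D.g (I.par n') * q j') * (zO⁻¹ * zN) := by rw [heq]; group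
  have e2 : N.N ((a * l * ((D.g (I.par n') * q j') * e0))⁻¹ * zP) =
      N.N (e0⁻¹ * (zO⁻¹ * zN)) := by
    rw [e1]; congr 1; group
  have t1 := d_tri N (a * l * ((D.g (I.par n') * q j') * e0)) zP (D.v n * x)
  rw [e2, d_comm N zP] at t1
  linarith

/-- engine I: from the local conditions -/
theorem good1 (hB : Base I N q D) (h1 : Loc1 I N q D) : Good I N q D where
  g_zero := hB.g_zero
  g_succ := hB.g_succ
  A_open := hB.A_open
  A_one := hB.A_one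
  L_open := hB.L_open
  L_one := hB.L_one
  e_pos := hB.e_pos
  η_pos := hB.η_pos
  nest := hB.nest
  conv := hB.conv
  dec := by
    intro t t' ht ht' hne hp
    rcases Nat.lt_or_gt_of_ne hne with h | h
    · exact (dec1 hB h1 ht' ht h hp.symm).symm
    · exact dec1 hB h1 ht ht' h hp
  lema := lema1 hB h1

/-! ### Engine II -/

/-- the points to be avoided at the node `t` by the served pairs -/
def CC (I : Idx) (q : ℕ → G) (D : Dat G) (t : ℕ) : Set G :=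
  {c | ∃ i < I.rd t, c = D.g (I.par t) * q i} ∪
  {c | ∃ i < I.rd t, ∃ o < I.th t, ∃ j < I.th t, ∃ tN < I.th t, 0 < tN ∧ ∃ k < I.rd tN,
    c = D.g (I.par t) * q i * ((D.g o * q j)⁻¹ * (D.g tN * q k))}

/-- relevant indices -/
def Relv (I : Idx) (N : LNorm G) (q : ℕ → G) (D : Dat G) (t i : ℕ) : Prop :=
  i < I.rd t ∧ ∃ x, Rel I N q D t x ∧ N.N ((D.g (I.par t) * q i)⁻¹ * x) < D.η (I.th t)

/-- local conditions of engine II -/
structure Loc2 (I : Idx) (N : LNorm G) (q : ℕ → G) (D : Dat G) : Prop where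
  η_small : ∀ τ, D.η τ ≤ 1 / (1000 * ((τ : ℝ) + 1))
  η_conj : ∀ τ o j tN i, o < τ → j < τ → 0 < tN → tN < τ → i < I.rd tN → ∀ g,
    N.N g < 2 * D.η τ →
      N.N (((D.g o * q j)⁻¹ * (D.g tN * q i))⁻¹ * g * ((D.g o * q j)⁻¹ * (D.g tN * q i))) ≤
        D.η (I.th tN)
  sib : ∀ t t' i i', 0 < t' → t' < t → I.par t = I.par t' → Relv I N q D t i → i' < I.rd t' →
    1 / ((I.mp t : ℝ) + 1) / 4 ≤ N.N ((D.g t' * q i')⁻¹ * (D.g t * q i))
  avoid : ∀ t n i, 0 < t → 0 < n → n < t → I.par t < n → Relv I N q D n i → ∀ c ∈ CC I q D t,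
    1 / ((I.mp n : ℝ) + 1) / 80 ≤ N.N (c⁻¹ * ((D.v t)⁻¹ * (D.g n * q i)))

theorem ηρ (h2 : Loc2 I N q D) {τ m : ℕ} (h : m ≤ τ) :
    D.η τ ≤ 1 / ((m : ℝ) + 1) / 1000 := by
  refine (h2.η_small τ).trans ?_
  rw [div_div, mul_comm (1000 : ℝ)]
  have h1 : (m : ℝ) ≤ τ := by exact_mod_cast h
  apply one_div_le_one_div_of_le (by positivity)
  nlinarith

theorem dec2 (hB : Base I N q D) (h2 : Loc2 I N q D) {t t' : ℕ} (ht : 0 < t) (ht' : 0 < t')
    (hlt : t' < t) (hp : I.par t = I.par t') : Disjoint (Pc I N q D t) (Pc I N q D t') := by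
  rw [Set.disjoint_left]
  intro z hz hz'
  obtain ⟨i, hi, x, hx, hxi, hz1, -⟩ := right_name hB ht hz
  obtain ⟨i', hi', x', hx', hxi', hz1', -⟩ := right_name hB ht' hz'
  have t1 := d_tri N (D.g t' * q i') z (D.g t * q i)
  rw [d_comm N z] at t1
  have ρ0 : 0 < 1 / ((I.mp t : ℝ) + 1) := by positivity
  have ρ0' : 0 < 1 / ((I.mp t' : ℝ) + 1) := by positivity
  rcases le_total (I.mp t) (I.mp t') with hm | hm
  · have h := h2.sib t t' i i' ht' hlt hp ⟨hi, x, hx, hxi⟩ hi'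
    have a1 := ηρ h2 (I.mp_le t)
    have a2 := ηρ h2 (hm.trans (I.mp_le t'))
    linarith
  · have h := h2.avoid t t' i' ht ht' hlt (by rw [hp]; exact I.par_lt t' ht')
      ⟨hi', x', hx', hxi'⟩ (D.g (I.par t) * q i) (Or.inl ⟨i, hi, rfl⟩)
    have a1 := ηρ h2 (hm.trans (I.mp_le t))
    have a2 := ηρ h2 (I.mp_le t')
    have e1 : N.N ((D.g (I.par t) * q i)⁻¹ * ((D.v t)⁻¹ * (D.g t' * q i'))) =
        N.N ((D.g t' * q i')⁻¹ * (D.g t * q i)) := by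
      rw [← N.inv, hB.g_succ t ht]; congr 1; group
    rw [e1] at h
    linarith

theorem lema2 (hB : Base I N q D) (h2 : Loc2 I N q D) (n n' o' tN : ℕ) (hn : 0 < n) (hn' : 0 < n')
    (ho' : 0 < o') (htN : 0 < tN) (h₁ : I.par n < I.th tN) (h₂ : I.mp n ≤ I.th tN)
    (h₃ : tN < I.th (I.par o')) (h₄ : I.par o' < I.th n) (h₅ : I.mp o' ≤ I.th n)
    (h₆ : I.par n < I.par n') (h₇ : I.par n' < I.th n) (h₈ : I.mp n' ≤ I.th n)
    (h₉ : n < I.th n') (hw : 0 < I.par n') (ho : 0 < I.par o') :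
    ∀ zP ∈ Pc I N q D n, ∀ zM ∈ Pc I N q D n', ∀ zO ∈ Pc I N q D o', ∀ zN ∈ Pc I N q D tN,
      zP ≠ zM * zO⁻¹ * zN := by
  intro zP hP zM hM zO hO zN hN heq
  have b1 := I.th_lt n hn
  have b2 := I.th_lt tN htN
  have b3 := I.th_lt _ ho
  have b4 := I.th_lt n' hn'
  have hlt : tN < I.par o' := h₃.trans (I.th_lt _ ho)
  obtain ⟨j, hj, i, hi, herr⟩ := err hB ho' htN hlt hO hN
  obtain ⟨i₁, hi₁, x₁, hx₁, hxi₁, hP1, -⟩ := right_name hB hn hP
  obtain ⟨i₂, hi₂, x₂, hx₂, hxi₂, hM1, -⟩ := right_name hB hn' hM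
  have hη : D.η (I.th n) ≤ D.η (I.th tN) := hB.η_anti _ _ (by omega)
  have hρ := ηρ h2 h₂
  have ρ0 : 0 < 1 / ((I.mp n : ℝ) + 1) := by positivity
  have hc := h2.η_conj (I.th n') (I.par o') j tN i (by omega) (by omega) htN (by omega) hi
    ((D.g n' * q i₂)⁻¹ * zM) hM1
  have h := h2.avoid n' n i₁ hn' hn (by omega) (by omega) ⟨hi₁, x₁, hx₁, hxi₁⟩
    (D.g (I.par n') * q i₂ * ((D.g (I.par o') * q j)⁻¹ * (D.g tN * q i)))
    (Or.inr ⟨i₂, hi₂, I.par o', by omega, j, by omega, tN, by omega, htN, i, hi, rfl⟩)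
  set e0 := (D.g (I.par o') * q j)⁻¹ * (D.g tN * q i)
  have e1 : N.N ((D.g (I.par n') * q i₂ * e0)⁻¹ * ((D.v n')⁻¹ * (D.g n * q i₁))) =
      N.N ((D.g n' * q i₂ * e0)⁻¹ * (D.g n * q i₁)) := by
    rw [hB.g_succ n' hn']; congr 1; group
  rw [e1] at h
  have t1 := d_tri N (D.g n' * q i₂ * e0) zP (D.g n * q i₁)
  rw [d_comm N zP] at t1
  have e2 : (D.g n' * q i₂ * e0)⁻¹ * zP =
      (e0⁻¹ * ((D.g n' * q i₂)⁻¹ * zM) * e0) * (e0⁻¹ * (zO⁻¹ * zN)) := by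
    rw [heq]; group
  have t2 := N.mul_le (e0⁻¹ * ((D.g n' * q i₂)⁻¹ * zM) * e0) (e0⁻¹ * (zO⁻¹ * zN))
  rw [← e2] at t2
  linarith

/-- engine II: from the local conditions -/
theorem good2 (hB : Base I N q D) (h2 : Loc2 I N q D) : Good I N q D where
  g_zero := hB.g_zero
  g_succ := hB.g_succ
  A_open := hB.A_open
  A_one := hB.A_one
  L_open := hB.L_open
  L_one := hB.L_one
  e_pos := hB.e_pos
  η_pos := hB.η_pos
  nest := hB.nest
  conv := hB.conv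
  dec := by
    intro t t' ht ht' hne hp
    rcases Nat.lt_or_gt_of_ne hne with h | h
    · exact (dec2 hB h2 ht' ht h hp.symm).symm
    · exact dec2 hB h2 ht ht' h hp
  lema := lema2 hB h2

end

end Pool.Agent.HNF.H61
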