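import Pool.Agent.Helper71_HNF.StmtR
import Pool.Agent.Helper61_HNF.Ded
import Pool.Agent.Helper44_HNF.Conv

/-!
# HNF: modules CONV, E1DED, E2BASE, E2DEC, E2LEM
-/

set_option autoImplicit false

namespace Pool.Agent.HNF.H61

open Topology Set MeasureTheory

theorem conv : ConvStmt := H44.conv

theorem base1 {G : Type} [Group G] [TopologicalSpace G] [IsTopologicalGroup G]
    {I : Idx} {N : LNorm G} {q : ℕ → G} {Γ : Gauge G} {W0 W1 : Set G}
    {h : ℕ → R1 G} (hQ : ∀ t, Q1 I N q Γ W0 W1 t h (h t)) : Base I N q (D1 h) where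
  g_zero := ((hQ 0).zero rfl).2
  g_succ := fun t ht => (hQ t).g_eq ht
  A_open := fun t => (hQ t).A_open
  A_one := fun t => (hQ t).A_one
  L_open := fun t => (hQ t).L_open
  L_one := fun t => (hQ t).L_one
  e_pos := fun _ => two_pos
  η_pos := fun t => (hQ t).η_pos
  nest := fun t ht a ha => (hQ t).nest ht a (subset_closure ha)
  conv := conv G Γ I (fun t => (h t).v) (fun t => (h t).g) (fun t => (h t).A)
    (fun t => (hQ t).A_one) (fun t ht => (hQ t).g_eq ht) (fun t ht => (hQ t).nest ht)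
    (fun t => (hQ t).gauge)
  η_anti := by
    intro s t hst
    rcases hst.lt_or_eq with hlt | rfl
    · exact (hQ t).η_le s hlt
    · exact le_rfl
  right := fun t ht i hi a ha => (hQ t).right ht i hi a ha
  inv := fun t t' ht' hlt i hi a ha l hl => (hQ t).inv t' hlt ht' i hi a ha l hl

theorem loc1 {G : Type} [Group G] [TopologicalSpace G] [IsTopologicalGroup G]
    {I : Idx} {N : LNorm G} {q : ℕ → G} {Γ : Gauge G} {W0 W1 : Set G}
    {h : ℕ → R1 G} (hQ : ∀ t, Q1 I N q Γ W0 W1 t h (h t)) : Loc1 I N q (D1 h) where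
  sib := by
    intro t t' ht' hlt hp i' hi' hx' x hx
    exact (hQ t).sib t' hlt ht' hp.symm i' hi' hx' x hx
  avoid := by
    intro t w tN o j j' i ht hw1 hw2 htN h1 h2 h3 ho hj hj' hi x hx a ha l hl
    have hth := I.th_lt t ht
    exact (hQ t).pat w (by omega) hw1 j' (by omega) o (by omega) j (by omega) tN h3 htN i hi
      h1 h2 x hx a ha l hl

theorem e1ded : E1DedStmt := by
  intro G _ _ _ _ I N q Γ W0 W1 h hQ
  exact good1 (base1 hQ) (loc1 hQ)

theorem e2base : E2BaseStmt := by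
  intro G _ _ _ _ I N q Γ h hQ
  exact
  { g_zero := ((hQ 0).zero rfl).2
    g_succ := fun t ht => (hQ t).g_eq ht
    A_open := fun t => (hQ t).A_open
    A_one := fun t => (hQ t).A_one
    L_open := fun t => (hQ t).L_open
    L_one := fun t => (hQ t).L_one
    e_pos := fun t => (hQ t).own.pos
    η_pos := fun t => (hQ t).η_pos
    nest := fun t ht a ha => (hQ t).nest ht a (subset_closure ha)
    conv := conv G Γ I (fun t => (h t).v) (fun t => (h t).g) (fun t => (h t).A)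
      (fun t => (hQ t).A_one) (fun t ht => (hQ t).g_eq ht) (fun t ht => (hQ t).nest ht)
      (fun t => (hQ t).gauge)
    η_anti := by
      intro s t hst
      rcases hst.lt_or_eq with hlt | rfl
      · exact (hQ t).η_le s hlt
      · exact le_rfl
    right := fun t ht i hi a ha => (hQ t).right ht i hi a ha
    inv := fun t t' ht' hlt i hi a ha l hl => (hQ t).inv t' hlt ht' i hi a ha l hl }

theorem loc2 {G : Type} [Group G] [TopologicalSpace G]
    {I : Idx} {N : LNorm G} {q : ℕ → G} {Γ : Gauge G}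
    {h : ℕ → R2 G} (hQ : ∀ t, Q2 I N q Γ t h (h t)) : Loc2 I N q (D2 h) where
  η_small := fun τ => (hQ τ).η_small
  η_conj := by
    intro τ o j tN i ho hj htN hlt hi g hg
    exact (hQ τ).η_conj o ho j hj tN hlt htN i hi g hg
  sib := by
    intro t t' i i' ht' hlt hp hi hi'
    have ht : 0 < t := by omega
    obtain ⟨hi0, x, hx, hxi⟩ := hi
    have h1 := (hQ t).avoid ht i hi0 ⟨x, hx, hxi⟩ ((D2 h).g t' * q i')
      (Or.inl (Or.inl ⟨t', hlt, i', hi', rfl⟩))
    have e1 : (D2 h).g t = (h t).v * (h (I.par t)).g := (hQ t).g_eq ht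
    rw [e1, mul_assoc]
    exact h1
  avoid := by
    intro t n i ht hn hnt hpn hi c hc
    obtain ⟨hi0, x, hx, hxi⟩ := hi
    have h1 := (hQ t).served ht ((D2 h).g n * q i, lev I n / 8)
      ⟨n, hpn, hnt, i, hi0, ⟨x, hx, hxi⟩, rfl⟩ c (by
        have hth := I.th_lt t ht
        rcases hc with ⟨k, hk, rfl⟩ | ⟨k, hk, o, ho, j, hj, tN, htN, htN0, k', hk', rfl⟩
        · exact Or.inl (Or.inr ⟨k, hk, rfl⟩)
        · exact Or.inr ⟨k, hk, o, by omega, j, by omega, tN, by omega, k', hk', rfl⟩)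
    have e1 : 1 / ((I.mp n : ℝ) + 1) / 80 = lev I n / 8 / 10 := by
      rw [lev]; ring
    rw [e1]
    exact h1

theorem e0 : E0Stmt := by
  intro G _ _ _ _ I N q D hB o' tN ho' htN hlt zO hO zN hN
  obtain ⟨i, hi, x, hx, hxi, hz, -⟩ := right_name hB htN hN
  obtain ⟨j, hj, a, ha, l, hl, rfl⟩ := left_name hB ho' hO
  refine ⟨j, hj, i, hi, ⟨x, hx, hxi⟩, ?_⟩
  have h1 := hB.inv (I.par o') tN htN hlt i hi a ha l hl
  rw [eps0]
  set y := D.g tN * q i with hy
  have e1 : ((D.g (I.par o') * q j)⁻¹ * y)⁻¹ * ((a * l * (D.g (I.par o') * q j))⁻¹ * zN) =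
      y⁻¹ * ((a * l)⁻¹ * zN) := by group
  rw [e1]
  have t1 := d_tri N y ((a * l)⁻¹ * y) ((a * l)⁻¹ * zN)
  have e2 : N.N (y⁻¹ * ((a * l)⁻¹ * y)) = N.N (y⁻¹ * (a * l) * y) := by
    rw [← N.inv]; congr 1; group
  have e3 : N.N (((a * l)⁻¹ * y)⁻¹ * ((a * l)⁻¹ * zN)) = N.N (y⁻¹ * zN) := d_left N _ _ _
  rw [e2, e3] at t1
  linarith

theorem e2dec : E2DecStmt := by
  intro G _ _ _ _ I N q Γ h hQ hB
  exact (good2 hB (loc2 hQ)).dec

theorem e2lem : E2LemStmt := by
  intro G _ _ _ _ I N q Γ h hQ hB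
  exact lema2 hB (loc2 hQ)

end Pool.Agent.HNF.H61
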